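import Pool.Agent.Lib.MP_33b3f9_ag.MG.Un.Comm
import Pool.Agent.Lib.MP_33b3f9_ag.MG.Br.Seg
import Pool.Agent.Lib.MP_33b3f9_ag.MG.Br.Pel

/-!
Descent of a self adjoint endomorphism through a similitude of the square.
-/

set_option autoImplicit false

noncomputable section

namespace MG.T2

open Complex Matrix MvPolynomial M4 M4.Un MG.Br MG.Un

variable {κ : Type} [Fintype κ] [DecidableEq κ]

/-- Two isogenies that intertwine the same relations. -/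
theorem pres {R R' : (κ ⊕ κ → ℝ) → (κ ⊕ κ → ℝ) → Prop} (hR : Gr R)
    (hu : ∀ x y y', R' x y → R' x y' → ∃ n, y - y' = rz n)
    {G G' d : Matrix (κ ⊕ κ) (κ ⊕ κ) ℤ} {c : ℤ} (hc : c ≠ 0) (hG : G' * G = c • 1)
    (hG' : G * G' = c • 1) (h1 : ∀ x y, R x y → R' (mz G *ᵥ x) (mz G *ᵥ y))
    (h2 : ∀ x y, R x y → R' (mz (d * G) *ᵥ x) (mz (d * G) *ᵥ y)) {x y : κ ⊕ κ → ℝ} (h : R x y) :
    R (mz (G' * (d * G)) *ᵥ x) (mz (G' * (d * G)) *ᵥ y) := by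
  have c0 : (c : ℝ) ≠ 0 := Int.cast_ne_zero.2 hc
  have mm : ∀ (A B : Matrix (κ ⊕ κ) (κ ⊕ κ) ℤ) w, mz (A * B) *ᵥ w = mz A *ᵥ mz B *ᵥ w :=
    fun A B w => by
      rw [mulVec_mulVec]
      exact congrArg (· *ᵥ w) (Matrix.map_mul (f := Int.castRingHom ℝ))
  have m1 : ∀ w : κ ⊕ κ → ℝ, mz (c • 1) *ᵥ w = (c : ℝ) • w := fun w => by
    rw [← one_mulVec w, ← smul_mulVec, one_mulVec]
    refine congrArg (· *ᵥ w) ?_
    ext i j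
    rw [mz, map_apply, Matrix.smul_apply, Matrix.smul_apply, one_apply, one_apply]
    split_ifs <;> simp
  obtain ⟨z, hz⟩ := hR.ex ((c : ℝ)⁻¹ • mz (G' * (d * G)) *ᵥ x)
  have h3 := h1 _ _ hz
  rw [mulVec_smul, mm G', ← mm G G', hG', m1, inv_smul_smul₀ c0] at h3
  obtain ⟨n, hn⟩ := hu _ _ _ (h2 _ _ h) h3
  have h4 := hR.sh _ _ 0 (G' *ᵥ n) (hR.zsmul hz c)
  rwa [smul_inv_smul₀ c0, rz_zero, add_zero, ← thmod_rz, ← hn, mulVec_sub, ← mm G' G, hG, m1,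
    add_sub_cancel, ← mm] at h4

theorem slt_rot (w : N2 κ → ℝ) :
    slt (mz (tn (1 : Matrix (κ ⊕ κ) (κ ⊕ κ) ℤ) !![0, -1; 1, 0]) *ᵥ w) 1 = slt w 0 := by
  funext i
  rw [slt_apply, mulVec, dotProduct, ← (e2 κ).sum_comp, Fintype.sum_prod_type]
  simp [mz, tn_apply, one_apply, slt_apply]

/-- A block of an endomorphism of the square. -/
theorem blk_pres {Q : (κ ⊕ κ → ℝ) → (κ ⊕ κ → ℝ) → Prop} (hQ : Gr Q)
    {A B : Matrix (κ ⊕ κ) (κ ⊕ κ) ℤ}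
    (h : ∀ x y, R2 Q x y → R2 Q (mz (dl A + dl B * tn 1 !![0, -1; 1, 0]) *ᵥ x)
      (mz (dl A + dl B * tn 1 !![0, -1; 1, 0]) *ᵥ y)) {x y : κ ⊕ κ → ℝ} (hxy : Q x y) :
    Q (mz B *ᵥ x) (mz B *ᵥ y) := by
  have e : ∀ x : κ ⊕ κ → ℝ, ∃ w : N2 κ → ℝ, slt w 0 = x ∧ slt w 1 = 0 ∧
      slt (mz (dl A + dl B * tn 1 !![0, -1; 1, 0]) *ᵥ w) 1 = mz B *ᵥ x := fun x => by
    obtain ⟨w, hw⟩ := exists_slt ![x, 0]
    refine ⟨w, hw 0, hw 1, ?_⟩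
    have e1 : mz (dl A + dl B * tn 1 !![0, -1; 1, 0]) = dl (mz A) + dl (mz B) *
        mz (tn (1 : Matrix (κ ⊕ κ) (κ ⊕ κ) ℤ) !![0, -1; 1, 0]) := by
      rw [mz, mz, mz, ← dl_map Int.cast_zero, ← dl_map Int.cast_zero]
      exact (map_add (Int.castRingHom ℝ).mapMatrix _ _).trans (congrArg _ (map_mul _ _ _))
    rw [e1, add_mulVec, slt_add, ← mulVec_mulVec, slt_dl, slt_dl, slt_rot, hw, hw]
    simp
  obtain ⟨w, h1, h2, h3⟩ := e x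
  obtain ⟨w', k1, k2, k3⟩ := e y
  rw [← h3, ← k3]
  refine h w w' (Fin.forall_fin_two.2 ⟨?_, ?_⟩) 1
  · rwa [h1, k1]
  · rw [h2, k2]
    exact hQ.zero

theorem sq_end [Nonempty κ] {τ : Matrix κ κ ℂ} (hτ : InH τ) (K : IntermediateField ℚ ℂ) {α : Type}
    (u : (κ → ℂ) → α → ℂ) (hu : ∀ a, Differentiable ℂ fun z => u z a) (h0 : ∀ z, u z ≠ 0)
    (p : (κ ⊕ κ → ℝ) ≃ₗ[ℝ] (κ → ℂ)) {A : Matrix (κ ⊕ κ) (κ ⊕ κ) ℝ}
    (hI : ∀ x, p (A *ᵥ x) = I • p x) {G : Matrix (κ ⊕ κ) (κ ⊕ κ) ℤ} (hG : G.det ≠ 0)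
    (hGI : cst τ * mz G = mz G * A) {k : ℕ} (hk : k ≠ 0)
    (v : α → (κ ⊕ κ → ℝ) → ℂ) (γ : (κ ⊕ κ → ℝ) → ℂ) (hγ : ∀ x, γ x ≠ 0)
    (hvu : ∀ a x, v a (mz G *ᵥ x) = γ x * u (p x) a) (hv : ∀ a, v a ∈ Hol τ (4 / k))
    (χ : (κ ⊕ κ → ℤ) → ℂ) (hχ : ∀ n, ‖χ n‖ = 1)
    (hUv : ∀ n a, U (4 / k) (mz G *ᵥ rz n) (v a) = χ n • v a)
    (hg : ∀ σ : ℂ ≃ₐ[K] ℂ, Gr fun x y => ∃ c, ∀ a, σ (u (p x) a) = c * u (p y) a)
    (hrat : ∀ (k : ℕ) (s : (κ × Fin 2 → ℂ) → ℂ), Differentiable ℂ s →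
      (∀ z w (c : ℂ), u2 u z = c • u2 u w → s z = c ^ k * s w) → ∀ z₀,
        ∃ (e : ℕ) (P Q : MvPolynomial (α × α) ℂ), P.IsHomogeneous (e + k) ∧ Q.IsHomogeneous e ∧
          eval (u2 u z₀) Q ≠ 0 ∧ ∀ z, s z * eval (u2 u z) Q = eval (u2 u z) P)
    {X b : Matrix (κ ⊕ κ) (κ ⊕ κ) ℤ} {m : ℕ} (hm : 0 < m) (hq : X * X + b * b = (m : ℤ) • 1)
    (XJ : Xᵀ * J κ ℤ = J κ ℤ * X) (bJ : bᵀ * J κ ℤ = J κ ℤ * b) (Xb : X * b = b * X)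
    (Xc : mz X * cst τ = cst τ * mz X) (bc : mz b * cst τ = cst τ * mz b) :
    ∃ U₁ : Subgroup (ℂ ≃ₐ[K] ℂ), U₁.FiniteIndex ∧ ∀ σ ∈ U₁, ∀ x y,
      (∃ c, ∀ a, σ (u (p x) a) = c * u (p y) a) → ∃ c, ∀ a,
        σ (u (p (mz (G.adjugate * (b * G)) *ᵥ x)) a) =
          c * u (p (mz (G.adjugate * (b * G)) *ᵥ y)) a := by
  have e1 : mz (dl G) = dl (mz G) := dl_map Int.cast_zero G
  have hG2 : (dl G).det ≠ 0 := by
    rw [dl_det]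
    exact pow_ne_zero 2 hG
  have hGI2 : cst (dg (Fin 2) τ) * mz (dl G) = mz (dl G) * dl A := by
    rw [e1, cst_dg, ← map_mul, hGI, map_mul]
  have hu2 : ∀ a, Differentiable ℂ fun z => u2 u z a := fun a =>
    ((hu a.1).comp (by fun_prop)).mul ((hu a.2).comp (by fun_prop))
  have h02 : ∀ z, u2 u z ≠ 0 := fun z => by
    obtain ⟨a, ha⟩ := Function.ne_iff.1 (h0 fun i => z (i, 0))
    obtain ⟨b, hb⟩ := Function.ne_iff.1 (h0 fun i => z (i, 1))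
    exact Function.ne_iff.2 ⟨(a, b), mul_ne_zero ha hb⟩
  have hI2 : ∀ x, p2 p (dl A *ᵥ x) = Complex.I • p2 p x := fun x => funext fun q =>
    (congrFun (p2_slt p _ q.2) q.1).trans (by rw [slt_dl, hI]; rfl)
  have hi := seg_iff u h0 p
  have hgr : ∀ σ : ℂ ≃ₐ[K] ℂ,
      Gr fun x y => ∃ c, ∀ a, σ (u2 u (p2 p x) a) = c * u2 u (p2 p y) a := fun σ =>
    (congrArg Gr (funext₂ fun x y => propext (hi σ x y))).mpr (gr2 (hg σ))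
  have hγ2 : ∀ x : N2 κ → ℝ, γ (slt x 0) * γ (slt x 1) ≠ 0 := fun x =>
    mul_ne_zero (hγ _) (hγ _)
  have hvu2 : ∀ (a : α × α) x, v a.1 (slt (mz (dl G) *ᵥ x) 0) * v a.2 (slt (mz (dl G) *ᵥ x) 1) =
      γ (slt x 0) * γ (slt x 1) * u2 u (p2 p x) a := fun a x => by
    rw [e1, slt_dl, slt_dl, hvu, hvu, mul_mul_mul_comm]
    rfl
  have hχ2 : ∀ n : N2 κ → ℤ, ‖χ (slt n 0) * χ (slt n 1)‖ = 1 := fun n => by
    rw [norm_mul, hχ, hχ, one_mul]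
  have hU2 : ∀ n (a : α × α), M4.U (4 / k) (mz (dl G) *ᵥ rz n)
      (fun w => v a.1 (slt w 0) * v a.2 (slt w 1)) =
      (χ (slt n 0) * χ (slt n 1)) • fun w => v a.1 (slt w 0) * v a.2 (slt w 1) := fun n a =>
    funext fun w => by
      rw [U2, e1, slt_dl, slt_dl, slt_rz, slt_rz, hUv, hUv]
      exact mul_mul_mul_comm _ _ _ _
  obtain ⟨r, hr⟩ : ∃ r, r = tn (1 : Matrix (κ ⊕ κ) (κ ⊕ κ) ℤ) !![0, -1; 1, 0] := ⟨_, rfl⟩
  have r1 : ∀ x, r * dl x = dl x * r := fun x => hr ▸ (tn_com x _).eq.symm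
  have r2 : r * r = -1 := by
    rw [hr, tn_mul, mul_one, show !![0, -1; 1, 0] * !![0, -1; 1, 0] = (-1 : Matrix _ _ ℤ) by decide,
      tn_neg, tn_one]
  have r3 : rᵀ = -r := by
    rw [hr, tn_tr, transpose_one, ← tn_neg]
    exact congrArg _ (by decide)
  have s1 : (dl X + dl b * r)ᵀ * J (κ × Fin 2) ℤ * (dl X + dl b * r) =
      (m : ℤ) • J (κ × Fin 2) ℤ := by
    have k1 : r * dl (J κ ℤ * b) * (dl b * r) = -dl (J κ ℤ * b * b) := by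
      rw [Matrix.mul_assoc, ← Matrix.mul_assoc (dl _), ← map_mul, ← r1, ← Matrix.mul_assoc, r2,
        neg_one_mul]
    have k2 : r * dl (J κ ℤ * b) * dl X = dl (J κ ℤ * X) * (dl b * r) := by
      rw [Matrix.mul_assoc, ← map_mul, r1, ← Matrix.mul_assoc (dl _), ← map_mul, Matrix.mul_assoc,
        Matrix.mul_assoc, Xb]
    rw [← dl_J, transpose_add, transpose_mul, dl_tr, dl_tr, r3, Matrix.add_mul, ← map_mul, XJ,
      Matrix.mul_assoc (-r), ← map_mul, bJ, neg_mul, Matrix.add_mul, neg_mul, Matrix.mul_add,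
      Matrix.mul_add, k1, k2, ← map_mul, ← map_smul, ← Matrix.mul_one (J κ ℤ), ← Matrix.mul_smul,
      ← hq, Matrix.mul_add, map_add, Matrix.mul_one, Matrix.mul_assoc, Matrix.mul_assoc]
    abel
  have s2 : mz (dl X + dl b * r) * cst (dg (Fin 2) τ) =
      cst (dg (Fin 2) τ) * mz (dl X + dl b * r) := by
    have k1 : mz (dl X + dl b * r) = dl (mz X) + dl (mz b) * mz r := by
      rw [mz, mz, mz, ← dl_map Int.cast_zero, ← dl_map Int.cast_zero]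
      exact (map_add (Int.castRingHom ℝ).mapMatrix _ _).trans (congrArg _ (map_mul _ _ _))
    have k2 : Commute (mz r) (dl (cst τ)) := by
      rw [hr, mz, tn_int]
      exact (tn_com _ _).symm
    rw [k1, cst_dg]
    exact ((Commute.map Xc dl).add_left ((Commute.map bc dl).mul_left k2)).eq
  have s3 : dl G.adjugate * ((dl X + dl b * r) * dl G) =
      dl (G.adjugate * (X * G)) + dl (G.adjugate * (b * G)) * r := by
    rw [Matrix.add_mul, Matrix.mul_add, Matrix.mul_assoc (dl b), r1, map_mul, map_mul, map_mul,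
      map_mul, Matrix.mul_assoc, Matrix.mul_assoc]
  have hτ2 := inH_dg (ρ := Fin 2) hτ
  let := D2 κ
  obtain ⟨U₁, hU₁, hR⟩ := descend hτ2 K (u2 u) hu2 h02 (p2 p) hI2 (G := dl G) hG2 hGI2 hk
    (fun a w => v a.1 (slt w 0) * v a.2 (slt w 1)) _ hγ2 hvu2
    (fun a => hol2 (hv a.1) (hv a.2)) _ hχ2 hU2 hgr (hrat k)
  have hs : Sim (zr (dl X + dl b * r)) m := sim_nat.2 s1
  obtain ⟨U₂, hU₂, ha⟩ := descend_end hτ2 K (u2 u) hu2 h02 (p2 p) hI2 (G := dl G) hG2 hGI2 hk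
    (fun a w => v a.1 (slt w 0) * v a.2 (slt w 1)) _ hγ2 hvu2
    (fun a => hol2 (hv a.1) (hv a.2)) _ hχ2 hU2 hgr hrat hm hs
    ((fix_iff hs (Nat.cast_pos.2 hm) hτ2).2 s2)
  refine ⟨U₁ ⊓ U₂, inferInstance, fun σ hσ x y h => blk_pres (hg σ)
    (A := G.adjugate * (X * G)) (fun x y h => ?_) h⟩
  rw [← hr, ← s3]
  exact pres (gr2 (hg σ)) (R' := Gal.Rl (dg (Fin 2) τ) σ.toRingEquiv)
    (fun x y y' a b => a.unique hτ2 b) hG (by rw [← map_mul, adjugate_mul, map_smul, map_one])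
    (by rw [← map_mul, mul_adjugate, map_smul, map_one])
    (fun x y h => hR σ hσ.1 x y ((hi σ x y).2 h)) (fun x y h => ha σ hσ.2 x y ((hi σ x y).2 h)) h

end MG.T2
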