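import Pool.Agent.Lib.MP_33b3f9_ag.MG.Br.Cay

/-!
A generator of norm one of a CM field.
-/

set_option autoImplicit false

noncomputable section

namespace MG.T2

open NumberField Polynomial IntermediateField MG.Br

variable {F : Type} [Field F] [NumberField F] [IsTotallyReal F] {s : F}

/-- Totally positive elements. -/
def Pos (c : F) : Prop := ∀ ρ : F →+* ℝ, 0 < ρ c

omit [NumberField F] in
theorem exists_re (σ : F →+* ℂ) : ∃ ρ : F →+* ℝ, ∀ f, σ f = ρ f :=
  ⟨(IsTotallyReal.complexEmbedding_isReal σ).embedding, fun f =>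
    ((IsTotallyReal.complexEmbedding_isReal σ).coe_embedding_apply f).symm⟩

theorem exists_rho (F : Type) [Field F] [NumberField F] [IsTotallyReal F] : Nonempty (F →+* ℝ) := by
  obtain ⟨σ⟩ : Nonempty (F →+* ℂ) := inferInstance
  exact ⟨(exists_re σ).choose⟩

theorem Pos.add_ne (hs : Pos s) (r : F) : r ^ 2 + s ≠ 0 := fun h => by
  obtain ⟨ρ⟩ := exists_rho F
  have e := congrArg ρ h
  rw [map_add, map_pow, map_zero] at e
  nlinarith [sq_nonneg (ρ r), hs ρ]

theorem Pos.ne (hs : Pos s) : s ≠ 0 := by simpa using hs.add_ne 0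

theorem cay_xy (hs : Pos s) : ∃ x y : F, x ^ 2 + s * y ^ 2 = 1 ∧ y ≠ 0 ∧
    ∀ σ τ : F →+* ℂ, σ x = τ x → σ = τ := by
  classical
  obtain ⟨a, ha⟩ := Field.exists_primitive_element ℚ F
  rw [Field.primitive_element_iff_algHom_eq_of_eval' ℚ ℂ fun _ => IsAlgClosed.splits _] at ha
  obtain ⟨σ₀⟩ : Nonempty (F →+* ℂ) := inferInstance
  let P : (F →+* ℂ) × (F →+* ℂ) → ℂ[X] := fun q =>
    (X + C (q.1 a)) ^ 2 * C (q.2 s) - (X + C (q.2 a)) ^ 2 * C (q.1 s)
  have hP : (X + C (σ₀ a)) * ∏ q ∈ Finset.univ.filter (fun q => q.1 ≠ q.2), P q ≠ 0 := by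
    refine mul_ne_zero (X_add_C_ne_zero _) (Finset.prod_ne_zero_iff.2 fun q hq h => ?_)
    have e := congrArg (eval (-q.1 a)) h
    simp only [P, eval_sub, eval_mul, eval_pow, eval_add, eval_X, eval_C, neg_add_cancel, eval_zero,
      ne_eq, OfNat.ofNat_ne_zero, not_false_eq_true, zero_pow, zero_mul, zero_sub, neg_eq_zero,
      mul_eq_zero, pow_eq_zero_iff, map_eq_zero, hs.ne, or_false] at e
    have := ha (a₁ := q.1.toRatAlgHom) (a₂ := q.2.toRatAlgHom) (neg_add_eq_zero.1 e)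
    exact (Finset.mem_filter.1 hq).2 (RingHom.ext fun f => DFunLike.congr_fun this f)
  obtain ⟨_, ⟨n, rfl⟩, hn⟩ := (Set.infinite_range_of_injective
    (Nat.cast_injective (R := ℂ))).exists_notMem_finite (finite_setOfPred_isRoot hP)
  have h0 := hs.add_ne (a + n)
  simp only [Set.mem_ofPred_eq, IsRoot.def, eval_mul, eval_prod, mul_eq_zero, not_or,
    Finset.prod_eq_zero_iff, not_exists, not_and] at hn
  refine ⟨((a + n) ^ 2 - s) / ((a + n) ^ 2 + s), 2 * (a + n) / ((a + n) ^ 2 + s), ?_, ?_,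
    fun σ τ h => ?_⟩
  · field_simp
    ring
  · refine div_ne_zero (mul_ne_zero two_ne_zero fun e => hn.1 ?_) h0
    have := congrArg σ₀ e
    rw [map_add, map_natCast, map_zero] at this
    simpa [add_comm] using this
  · by_contra hne
    refine hn.2 (σ, τ) (Finset.mem_filter.2 ⟨Finset.mem_univ _, hne⟩) ?_
    rw [map_div₀, map_div₀, div_eq_div_iff ((_root_.map_ne_zero σ).2 h0)
      ((_root_.map_ne_zero τ).2 h0)] at h
    simp only [map_sub, map_add, map_pow, map_natCast] at h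
    simp only [P, eval_sub, eval_mul, eval_pow, eval_add, eval_X, eval_C]
    linear_combination h / 2

theorem cay_gen {E : Type} [Field E] [Algebra ℚ E] [Algebra F E] (h0 : Pos s) {i : E}
    (hi : i * i = -algebraMap F E s)
    (hs : ∀ e, ∃ u t : F, e = algebraMap F E u + algebraMap F E t * i)
    (h2 : Module.finrank F E = 2) {x y : F} (hxy : x ^ 2 + s * y ^ 2 = 1) (hy : y ≠ 0)
    (hx : ∀ σ τ : F →+* ℂ, σ x = τ x → σ = τ) {N : ℚ} (hN : N ≠ 0) {w : E}
    (hw : w = N • (algebraMap F E x + algebraMap F E y * i)) :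
    Irreducible (minpoly ℚ w) ∧ (minpoly ℚ w).natDegree = 2 * Module.finrank ℚ F ∧
      (∀ z : ℂ, aeval z (minpoly ℚ w) = 0 → ‖z‖ ^ 2 = (N : ℝ) ^ 2 ∧ z.im ≠ 0 ∧
        ∃ ρ : F →+* ℝ, z.re = N * ρ x) ∧
      ∀ e, ∃ c : Polynomial ℚ, aeval w c = e := by
  have : FiniteDimensional F E := Module.finite_of_finrank_pos (by omega)
  have : FiniteDimensional ℚ E := Module.Finite.trans F E
  have hw0 : IsIntegral ℚ w := .of_finite ℚ w
  have key : ∀ σ : E →ₐ[ℚ] ℂ, ∃ (ρ : F →+* ℝ) (t : ℝ), (∀ f, σ (algebraMap F E f) = ρ f) ∧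
      σ (algebraMap F E y) * σ i = t * Complex.I ∧ ρ x ^ 2 + t ^ 2 = 1 ∧ t ≠ 0 ∧
      σ w = N * (ρ x + t * Complex.I) := fun σ => by
    obtain ⟨ρ, hρ⟩ := exists_re (σ.toRingHom.comp (algebraMap F E))
    have hρ' : ∀ f, σ (algebraMap F E f) = ρ f := hρ
    obtain ⟨r, hr⟩ : ∃ r : ℝ, r * r = ρ s ∧ σ i = r * Complex.I := by
      have e := Real.mul_self_sqrt (h0 ρ).le
      have e1 : σ i * σ i = (√(ρ s) * Complex.I) * (√(ρ s) * Complex.I) := by
        rw [← map_mul, hi, map_neg, hρ', mul_mul_mul_comm, Complex.I_mul_I, ← Complex.ofReal_mul, e,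
          mul_neg_one]
      rcases mul_self_eq_mul_self_iff.1 e1 with h | h
      exacts [⟨_, e, h⟩, ⟨-√(ρ s), by rw [neg_mul_neg, e], by rw [h]; push_cast; ring⟩]
    have e := congrArg ρ hxy
    rw [map_add, map_mul, map_pow, map_pow, map_one, ← hr.1] at e
    have e2 : σ (algebraMap F E y) * σ i = (ρ y * r : ℝ) * Complex.I := by
      rw [hρ', hr.2]
      push_cast
      ring
    refine ⟨ρ, ρ y * r, hρ', e2, by linear_combination e,
      mul_ne_zero ((_root_.map_ne_zero ρ).2 hy) fun h => (h0 ρ).ne' (by rw [← hr.1, h, mul_zero]),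
      ?_⟩
    rw [hw, map_smul, map_add, map_mul, e2, hρ', Rat.smul_def]
  have prim : ℚ⟮w⟯ = ⊤ := by
    rw [Field.primitive_element_iff_algHom_eq_of_eval' ℚ ℂ fun _ => IsAlgClosed.splits _]
    intro σ τ h
    obtain ⟨ρ, t, s1, s2, -, -, s6⟩ := key σ
    obtain ⟨ρ', t', t1, t2, -, -, t6⟩ := key τ
    have e : (ρ x : ℂ) + t * Complex.I = ρ' x + t' * Complex.I :=
      mul_left_cancel₀ (Rat.cast_ne_zero.2 hN) (s6.symm.trans (h.trans t6))
    have e1 : ρ x = ρ' x := by simpa using congrArg Complex.re e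
    have e2 := hx (σ.toRingHom.comp (algebraMap F E)) (τ.toRingHom.comp (algebraMap F E))
      ((s1 x).trans (e1 ▸ (t1 x).symm))
    have e3 : ∀ f, σ (algebraMap F E f) = τ (algebraMap F E f) := fun f => DFunLike.congr_fun e2 f
    have e4 : σ i = τ i := by
      rw [e1, add_right_inj, ← s2, ← t2, ← e3] at e
      exact mul_left_cancel₀ ((_root_.map_ne_zero σ).2 ((_root_.map_ne_zero _).2 hy)) e
    refine AlgHom.ext fun u => ?_
    obtain ⟨a, b, rfl⟩ := hs u
    simp only [map_add, map_mul, e3, e4]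
  refine ⟨minpoly.irreducible hw0, ?_, fun z hz => ?_, fun e => ?_⟩
  · rw [(Field.primitive_element_iff_minpoly_natDegree_eq ℚ w).1 prim,
      ← Module.finrank_mul_finrank ℚ F E, h2, mul_comm]
  · have hm : z ∈ (minpoly ℚ w).rootSet ℂ := mem_rootSet.2 ⟨minpoly.ne_zero hw0, hz⟩
    rw [← (Algebra.IsAlgebraic.of_finite ℚ E).range_eval_eq_rootSet_minpoly ℂ w] at hm
    obtain ⟨σ, rfl⟩ := hm
    obtain ⟨ρ, t, -, -, s3, s4, s6⟩ := key σ
    have n0 : (N : ℝ) ≠ 0 := Rat.cast_ne_zero.2 hN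
    simp only [s6, Complex.sq_norm, Complex.normSq_apply]
    refine ⟨?_, by simp [n0, s4], ρ, by simp⟩
    simp
    linear_combination (N : ℝ) ^ 2 * s3
  · have hm : e ∈ ℚ⟮w⟯.toSubalgebra := by
      rw [prim]
      trivial
    rw [adjoin_simple_toSubalgebra_of_isAlgebraic hw0.isAlgebraic,
      Algebra.adjoin_singleton_eq_range_aeval] at hm
    exact hm

/-- A generator of `F(j)` of the form `N (x + y j)` with `x ^ 2 + s y ^ 2 = 1`. -/
theorem exists_cay (h0 : Pos s) :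
    ∃ x y : F, x ^ 2 + s * y ^ 2 = 1 ∧ (∀ f : F, ∃ c : Polynomial ℚ, aeval x c = f) ∧
      ∀ (A : Type) [Ring A] [Algebra ℚ A] [Nontrivial A]
      (ψ : F →ₐ[ℚ] A) (j : A), j * j = -ψ s → (∀ f, Commute (ψ f) j) → ∀ N : ℚ, N ≠ 0 →
      Irreducible (minpoly ℚ (N • (ψ x + ψ y * j))) ∧
      (minpoly ℚ (N • (ψ x + ψ y * j))).natDegree = 2 * Module.finrank ℚ F ∧
      (∀ z : ℂ, Polynomial.aeval z (minpoly ℚ (N • (ψ x + ψ y * j))) = 0 →
        ‖z‖ ^ 2 = (N : ℝ) ^ 2 ∧ z.im ≠ 0 ∧ ∃ ρ : F →+* ℝ, z.re = N * ρ x) ∧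
      ∀ u t : F, ∃ c : Polynomial ℚ,
        Polynomial.aeval (N • (ψ x + ψ y * j)) c = ψ u + ψ t * j := by
  obtain ⟨x, y, hxy, hy, hx⟩ := cay_xy h0
  refine ⟨x, y, hxy, fun f => ?_, fun A _ _ _ ψ j hj hc N hN => ?_⟩
  · have prim : ℚ⟮x⟯ = ⊤ := by
      rw [Field.primitive_element_iff_algHom_eq_of_eval' ℚ ℂ fun _ => IsAlgClosed.splits _]
      exact fun σ τ h => AlgHom.coe_ringHom_injective (hx σ τ h)
    have hm : f ∈ ℚ⟮x⟯.toSubalgebra := by
      rw [prim]
      trivial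
    rw [adjoin_simple_toSubalgebra_of_isAlgebraic (IsIntegral.of_finite ℚ x).isAlgebraic,
      Algebra.adjoin_singleton_eq_range_aeval] at hm
    exact hm
  have : Fact (∀ r : F, r ^ 2 ≠ -s + 0 * r) :=
    ⟨fun r h => h0.add_ne r (by rw [h]; ring)⟩
  let Φ : QuadraticAlgebra F (-s) 0 →+* A :=
    { toFun := fun e => ψ e.re + ψ e.im * j
      map_one' := by simp [QuadraticAlgebra.re_one, QuadraticAlgebra.im_one]
      map_zero' := by simp
      map_add' := fun a b => by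
        simp only [QuadraticAlgebra.re_add, QuadraticAlgebra.im_add, map_add, add_mul]
        abel
      map_mul' := fun a b => by
        have e1 : ψ a.im * j * (ψ b.im * j) = -(ψ s * ψ a.im * ψ b.im) := by
          rw [mul_assoc, ← mul_assoc j, ← (hc _).eq, mul_assoc, hj, mul_neg, mul_neg, ← map_mul,
            ← map_mul, ← map_mul, ← map_mul]
          congr 2
          ring
        have e2 : ψ a.im * j * ψ b.re = ψ a.im * ψ b.re * j := by
          rw [mul_assoc, ← (hc _).eq, mul_assoc]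
        simp only [QuadraticAlgebra.re_mul, QuadraticAlgebra.im_mul, map_add, map_mul, map_neg,
          map_zero, add_mul, mul_add, e1, e2, mul_assoc (ψ a.re)]
        noncomm_ring }
  have hΦ : ∀ u t : F, Φ.toRatAlgHom (algebraMap F _ u + algebraMap F _ t * QuadraticAlgebra.omega)
      = ψ u + ψ t * j := fun s t => by simp [Φ]
  obtain ⟨h1, h2, h3, h4⟩ := cay_gen (E := QuadraticAlgebra F (-s) 0) h0
    (i := QuadraticAlgebra.omega) (by ext <;> simp)
    (fun e => ⟨e.re, e.im, by ext <;> simp⟩)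
    (QuadraticAlgebra.finrank_eq_two _ _) hxy hy hx hN rfl
  rw [← hΦ, ← map_smul, minpoly.algHom_eq _ Φ.injective]
  refine ⟨h1, h2, h3, fun s t => ?_⟩
  obtain ⟨c, hc⟩ := h4 (algebraMap F _ s + algebraMap F _ t * QuadraticAlgebra.omega)
  exact ⟨c, by rw [aeval_algHom_apply, hc, hΦ]⟩

end MG.T2
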