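import Mathlib

/-!
Positive involutions of quaternion algebras.
-/

set_option autoImplicit false

noncomputable section

namespace MG.T2

variable {F : Type} [Field F] [CharZero F] {a b : F}

omit [CharZero F] in
theorem quat_sq {x y : QuaternionAlgebra F a 0 b} (hx : x.re = 0) (hy : y.re = 0) :
    x * y + y * x = (2 * (x * y).re) • 1 := by
  ext <;> simp [hx, hy] <;> ring

/-- The centre. -/
theorem quat_cen (ha : a ≠ 0) {x : QuaternionAlgebra F a 0 b} (h : ∀ y, x * y = y * x) :
    x = algebraMap F _ x.re := by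
  have h1 := h ⟨0, 1, 0, 0⟩
  have h2 := congrArg QuaternionAlgebra.imK (h ⟨0, 0, 1, 0⟩)
  have h3 := congrArg QuaternionAlgebra.imK h1
  have h4 := congrArg QuaternionAlgebra.imJ h1
  simp only [QuaternionAlgebra.imK_mul, QuaternionAlgebra.imJ_mul, mul_zero, mul_one, zero_mul,
    one_mul, add_zero, zero_add, sub_zero, zero_sub] at h2 h3 h4
  ext
  · simp
  · exact self_eq_neg.1 h2
  · exact neg_eq_self.1 h3
  · exact (mul_eq_zero.1 (neg_eq_self.1 (by simpa using h4))).resolve_left ha

/-- A positive involution of a quaternion algebra that is not definite. -/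
theorem quat_nf (ha : a ≠ 0) (hb : b ≠ 0) {P : F → Prop} (h0 : ¬ P 0) (hP : ¬ (P (-a) ∧ P (-b)))
    (σ : QuaternionAlgebra F a 0 b →ₗ[F] QuaternionAlgebra F a 0 b) (h1 : σ 1 = 1)
    (hmul : ∀ x y, σ (x * y) = σ y * σ x) (hinv : ∀ x, σ (σ x) = x)
    (hpos : ∀ x (c : F), x ≠ 0 → σ x * x = c • 1 → P c) :
    ∃ (A B : QuaternionAlgebra F a 0 b) (s t : F), P s ∧ P t ∧ σ A = -A ∧
      σ B = B ∧ A * A = -(s • 1) ∧ B * B = t • 1 ∧ A * B = -(B * A) ∧
      ∀ x, ∃ c : Fin 4 → F, x = c 0 • 1 + c 1 • A + c 2 • B + c 3 • (A * B) := by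
  let i : QuaternionAlgebra F a 0 b := ⟨0, 1, 0, 0⟩
  let j : QuaternionAlgebra F a 0 b := ⟨0, 0, 1, 0⟩
  have hc : ∀ x y, (σ (x * y - y * x)).re = 0 := fun x y => by
    rw [map_sub, hmul, hmul]
    simp
    ring
  have hp : ∀ x : QuaternionAlgebra F a 0 b, x.re = 0 → (σ x).re = 0 := fun x hx => by
    have e : x = (x.imI / (2 * b)) • (i * j * j - j * (i * j)) +
        (x.imJ / (2 * a)) • (i * (i * j) - i * j * i) + (x.imK / 2) • (i * j - j * i) := by
      ext <;> simp [i, j, hx] <;> field_simp <;> ring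
    rw [e, map_add, map_add, map_smul, map_smul, map_smul]
    simp only [QuaternionAlgebra.re_add, QuaternionAlgebra.re_smul, hc, smul_zero, add_zero]
  obtain ⟨A, hA0, hA1, hA2⟩ : ∃ A, A ≠ 0 ∧ A.re = 0 ∧ σ A = -A := by
    obtain ⟨x, hx, hx'⟩ : ∃ x : QuaternionAlgebra F a 0 b, x.re = 0 ∧ σ x ≠ x := by
      by_contra! h
      have h2 := hmul i j
      rw [h i rfl, h j rfl, h _ (by simp [i, j])] at h2
      have h3 := congrArg QuaternionAlgebra.imK h2
      norm_num [i, j] at h3
    exact ⟨_, sub_ne_zero.2 hx'.symm, by simp [hx, hp x hx], by rw [map_sub, hinv, neg_sub]⟩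
  obtain ⟨B, hB0, hB1, hB2⟩ : ∃ B, B ≠ 0 ∧ B.re = 0 ∧ σ B = B := by
    obtain ⟨x, hx, hx'⟩ : ∃ x : QuaternionAlgebra F a 0 b, x.re = 0 ∧ x + σ x ≠ 0 := by
      by_contra! h
      refine hP ⟨hpos i (-a) (fun e => one_ne_zero (congrArg QuaternionAlgebra.imI e)) ?_,
        hpos j (-b) (fun e => one_ne_zero (congrArg QuaternionAlgebra.imJ e)) ?_⟩
      · rw [eq_neg_of_add_eq_zero_right (h i rfl)]
        ext <;> simp [i]
      · rw [eq_neg_of_add_eq_zero_right (h j rfl)]
        ext <;> simp [j]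
    exact ⟨_, hx', by simp [hx, hp x hx], by rw [map_add, hinv, add_comm]⟩
  have sq : ∀ x : QuaternionAlgebra F a 0 b, x.re = 0 → x * x = (x * x).re • 1 := fun x hx => by
    refine smul_right_injective _ (two_ne_zero' F) ?_
    beta_reduce
    rw [two_smul, quat_sq hx hx, mul_smul]
  have hAA : A * A = -((-(A * A).re) • 1) := by rw [neg_smul, neg_neg, ← sq A hA1]
  have hs : P (-(A * A).re) := hpos A _ hA0 (by rw [hA2, neg_mul, neg_smul, ← sq A hA1])
  have ht : P (B * B).re := hpos B _ hB0 (by rw [hB2, ← sq B hB1])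
  have hBB := sq B hB1
  have hAB : A * B = -(B * A) := by
    have h2 := congrArg σ (quat_sq hA1 hB1)
    rw [map_smul, h1, ← quat_sq hA1 hB1, map_add, hmul, hmul, hA2, hB2, mul_neg, neg_mul] at h2
    refine eq_neg_of_add_eq_zero_left (smul_right_injective _ (two_ne_zero' F) ?_)
    beta_reduce
    rw [smul_zero, two_smul]
    nth_rewrite 1 [← h2]
    abel
  generalize -(A * A).re = s at hAA hs
  generalize (B * B).re = t at hBB ht
  have s0 : s ≠ 0 := fun e => h0 (e ▸ hs)
  have t0 : t ≠ 0 := fun e => h0 (e ▸ ht)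
  refine ⟨A, B, s, t, hs, ht, hA2, hB2, hAA, hBB, hAB, fun x => ?_⟩
  have h2 : ∀ u v : F, u • 1 + v • A = 0 → u = 0 ∧ v = 0 := fun u v h => by
    have h3 : u = 0 := by simpa [hA1] using congrArg QuaternionAlgebra.re h
    rw [h3, zero_smul, zero_add] at h
    exact ⟨h3, (smul_eq_zero.1 h).resolve_right hA0⟩
  have hli : LinearIndependent F ![1, A, B, A * B] := by
    refine Fintype.linearIndependent_iff.2 fun c hc => ?_
    simp only [Fin.sum_univ_four, Matrix.cons_val_zero, Matrix.cons_val_one, Matrix.cons_val] at hc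
    have e1 : (A * B).re = 0 := by
      have := congrArg QuaternionAlgebra.re (quat_sq hA1 hB1)
      rw [hAB, neg_add_cancel] at this
      rw [hAB]
      simpa using this.symm
    have e2 : c 0 = 0 := by
      simpa only [QuaternionAlgebra.re_add, QuaternionAlgebra.re_smul, hA1, hB1, e1, mul_zero,
        add_zero, QuaternionAlgebra.re_one, smul_eq_mul, mul_one, QuaternionAlgebra.re_zero] using
        congrArg QuaternionAlgebra.re hc
    rw [e2, zero_smul, zero_add] at hc
    have e3 : A * (A * B) = -(s • B) := by rw [← mul_assoc, hAA, neg_mul, smul_mul_assoc, one_mul]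
    have e4 : c 1 = 0 := by
      have := congrArg (fun x => (A * x).re) hc
      simp only [mul_add, mul_smul_comm, hAA, e3, QuaternionAlgebra.re_add,
        QuaternionAlgebra.re_smul, QuaternionAlgebra.re_neg, hB1, e1, neg_zero, add_zero,
        mul_zero, QuaternionAlgebra.re_zero, QuaternionAlgebra.re_one, smul_eq_mul, mul_one] at this
      exact (mul_eq_zero.1 this).resolve_right (neg_ne_zero.2 s0)
    rw [e4, zero_smul, zero_add] at hc
    have e5 := congrArg (· * B) hc
    simp only [add_mul, smul_mul_assoc, mul_assoc, hBB, mul_smul_comm, mul_one, zero_mul,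
      smul_smul] at e5
    obtain ⟨e6, e7⟩ := h2 _ _ e5
    intro k
    fin_cases k
    exacts [e2, e4, (mul_eq_zero.1 e6).resolve_right t0, (mul_eq_zero.1 e7).resolve_right t0]
  have h3 : x ∈ Submodule.span F (Set.range ![1, A, B, A * B]) := by
    rw [hli.span_eq_top_of_card_eq_finrank' (by simp [QuaternionAlgebra.finrank_eq_four])]
    trivial
  obtain ⟨c, hc⟩ := (Submodule.mem_span_range_iff_exists_fun F).1 h3
  exact ⟨c, by simpa [Fin.sum_univ_four] using hc.symm⟩

end MG.T2
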