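import Pool.Agent.Lib.MP_33b3f9_ag.MG.Br.Kr
import Pool.Agent.Lib.MP_33b3f9_ag.MG.T2.Cay
import Pool.Agent.Lib.MP_33b3f9_ag.MG.T2.Quat

/-!
The Rosati involution of a quaternion algebra over a totally real field.
-/

set_option autoImplicit false

noncomputable section

namespace MG.T2

open Matrix M4 M8

variable {κ : Type} [Fintype κ] [DecidableEq κ] {τ : Matrix κ κ ℂ}

theorem dag_com (hτ : InH τ) {g : Matrix (κ ⊕ κ) (κ ⊕ κ) ℝ} (hg : g * cst τ = cst τ * g) :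
    dag g * cst τ = cst τ * dag g := by
  have h1 := congrArg dag hg
  rw [dag_mul, dag_mul, dag_cst hτ, neg_mul, mul_neg, neg_inj] at h1
  exact h1.symm

theorem pm_eq (hτ : InH τ) : ∃ k : Matrix (κ ⊕ κ) (κ ⊕ κ) ℝ, IsUnit k ∧
    ∀ g, g * cst τ = cst τ * g → (k * g)ᵀ * (k * g) = kᵀ * k * (dag g * g) := by
  obtain ⟨k, hk, e⟩ := FP.Pm_fac hτ
  refine ⟨k, (isUnit_iff_isUnit_det k).2 (SymplecticGroup.symplectic_det hk), fun g hg => ?_⟩
  rw [transpose_mul, Matrix.mul_assoc, ← Matrix.mul_assoc kᵀ, ← e, FP.Pm, ← Matrix.mul_assoc,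
    ← Matrix.mul_assoc, ← J_dag, Matrix.mul_assoc (J κ ℝ), dag_com hτ hg]
  simp only [Matrix.mul_assoc]

theorem eig_pos (hτ : InH τ) {g : Matrix (κ ⊕ κ) (κ ⊕ κ) ℝ} (hg : g * cst τ = cst τ * g)
    {v : κ ⊕ κ → ℝ} {t : ℝ} (h0 : g *ᵥ v ≠ 0) (h : (dag g * g) *ᵥ v = t • v) : 0 < t := by
  obtain ⟨k, hk, e⟩ := pm_eq hτ
  have h1 : ∀ x : Matrix (κ ⊕ κ) (κ ⊕ κ) ℝ, v ⬝ᵥ (xᵀ * x) *ᵥ v = (x *ᵥ v) ⬝ᵥ (x *ᵥ v) := fun x => by
    rw [← mulVec_mulVec, dotProduct_mulVec, vecMul_transpose]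
  have h2 : ∀ w : κ ⊕ κ → ℝ, 0 ≤ w ⬝ᵥ w := fun w => Finset.sum_nonneg fun _ _ => mul_self_nonneg _
  have h3 := h1 (k * g)
  rw [e g hg, ← mulVec_mulVec, h, mulVec_smul, dotProduct_smul, h1, smul_eq_mul] at h3
  have h4 : 0 < ((k * g) *ᵥ v) ⬝ᵥ ((k * g) *ᵥ v) := (h2 _).lt_of_ne' fun h5 => h0 (by
    have h6 := dotProduct_self_eq_zero.1 h5
    rw [← mulVec_mulVec] at h6
    exact (mulVec_injective_of_isUnit hk) (h6.trans (mulVec_zero _).symm))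
  exact lt_of_not_ge fun hc => h4.not_ge (h3 ▸ mul_nonpos_of_nonpos_of_nonneg hc (h2 _))

theorem tr_nonneg (hτ : InH τ) {g : Matrix (κ ⊕ κ) (κ ⊕ κ) ℝ} (hg : g * cst τ = cst τ * g) :
    0 ≤ (dag g * g).trace := by
  obtain ⟨k, hk, e⟩ := pm_eq hτ
  obtain ⟨k', e1⟩ := hk.exists_left_inv
  have e2 := mul_eq_one_comm.1 e1
  have h1 : (k * g * k')ᵀ * (k * g * k') = k * (dag g * g) * k' := by
    rw [transpose_mul, Matrix.mul_assoc, ← Matrix.mul_assoc _ _ k', e g hg, Matrix.mul_assoc kᵀ,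
      Matrix.mul_assoc kᵀ, ← Matrix.mul_assoc k'ᵀ, ← transpose_mul, e2, transpose_one,
      Matrix.one_mul]
  have h2 := FP.pm_trace_nonneg (k * g * k')
  rwa [h1, trace_mul_cycle, e1, Matrix.one_mul] at h2

variable {F : Type} [Field F] [NumberField F]

/-- The conjugates are eigenvalues. -/
theorem exists_eig [Nonempty κ] (ψ : F →ₐ[ℚ] Matrix (κ ⊕ κ) (κ ⊕ κ) ℚ) (c : F) (ρ : F →+* ℝ) :
    ∃ v : κ ⊕ κ → ℝ, v ≠ 0 ∧ (ψ c).map (Rat.castHom ℝ) *ᵥ v = ρ c • v := by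
  have h1 : Polynomial.aeval c (ψ c).charpoly = 0 := ψ.toRingHom.injective (by
    change ψ _ = ψ 0
    rw [← Polynomial.aeval_algHom_apply, aeval_self_charpoly, map_zero])
  have h2 : ((ψ c).map (Rat.castHom ℝ)).charpoly.eval (ρ c) = 0 := by
    rw [charpoly_map, show Rat.castHom ℝ = algebraMap ℚ ℝ from rfl, Polynomial.eval_map_algebraMap]
    exact (Polynomial.aeval_algHom_apply ρ.toRatAlgHom c _).trans (by rw [h1, map_zero])
  rw [eval_charpoly] at h2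
  obtain ⟨v, h3, h4⟩ := exists_mulVec_eq_zero_iff.2 h2
  refine ⟨v, h3, ?_⟩
  rw [sub_mulVec, sub_eq_zero, scalar_apply, ← smul_one_eq_diagonal, smul_mulVec, one_mulVec] at h4
  exact h4.symm

variable [NumberField.IsTotallyReal F] {a b : F}

/-- The normal form of the endomorphism algebra. -/
theorem rosati [Nonempty κ] (hτ : InH τ)
    (φ : QuaternionAlgebra F a 0 b →ₐ[ℚ] Matrix (κ ⊕ κ) (κ ⊕ κ) ℚ)
    (hd : ∀ x : QuaternionAlgebra F a 0 b, x ≠ 0 → IsUnit x) (hi : ∀ σ : F →+* ℝ, 0 < σ a ∨ 0 < σ b)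
    (h : ∀ d : Matrix (κ ⊕ κ) (κ ⊕ κ) ℚ,
      d.map (Rat.cast : ℚ → ℝ) * cst τ = cst τ * d.map (Rat.cast : ℚ → ℝ) ↔ ∃ x, φ x = d) :
    ∃ (ψ : F →ₐ[ℚ] Matrix (κ ⊕ κ) (κ ⊕ κ) ℚ) (A B : Matrix (κ ⊕ κ) (κ ⊕ κ) ℚ) (s t x : F),
      Pos s ∧ Pos t ∧ x ^ 2 + t = 1 ∧ A * A = -ψ s ∧ B * B = ψ t ∧ B * A = -(A * B) ∧
      dag A = -A ∧ dag B = B ∧ (∀ f, dag (ψ f) = ψ f) ∧ (∀ f, Commute (ψ f) A) ∧
      (∀ f, Commute (ψ f) B) ∧ ∀ d : Matrix (κ ⊕ κ) (κ ⊕ κ) ℚ,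
        d.map (Rat.cast : ℚ → ℝ) * cst τ = cst τ * d.map (Rat.cast : ℚ → ℝ) ↔
          ∃ u v u' v', d = ψ u + ψ v * A + (ψ u' + ψ v' * A) * B := by
  have inj : Function.Injective φ := (injective_iff_map_eq_zero φ).2 fun x hx => by
    by_contra h0
    exact ((hd x h0).map φ).ne_zero hx
  have ha : a ≠ 0 := fun e => (((hd ⟨0, 1, 0, 0⟩ fun e =>
    one_ne_zero (congrArg QuaternionAlgebra.imI e)).pow 2).ne_zero (by ext <;> simp [sq, e]))
  have hb : b ≠ 0 := fun e => (((hd ⟨0, 0, 1, 0⟩ fun e =>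
    one_ne_zero (congrArg QuaternionAlgebra.imJ e)).pow 2).ne_zero (by ext <;> simp [sq, e]))
  have hr : ∀ x, dag ((φ x).map (Rat.castHom ℝ)) = (dag (φ x)).map Rat.cast := fun x =>
    (dag_map (Rat.castHom ℝ) _).symm
  choose σ hσ using fun x => (h (dag (φ x))).1 (hr x ▸ dag_com hτ ((h _).2 ⟨x, rfl⟩))
  have hmul : ∀ x y, σ (x * y) = σ y * σ x := fun x y => inj (by
    rw [hσ, map_mul φ, map_mul φ, dag_mul, hσ, hσ])
  have hinv : ∀ x, σ (σ x) = x := fun x => inj (by rw [hσ, hσ, dag_dag])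
  let ψ : F →ₐ[ℚ] Matrix (κ ⊕ κ) (κ ⊕ κ) ℚ := φ.comp (IsScalarTower.toAlgHom ℚ F _)
  have hψ : ∀ f, ψ f = φ (algebraMap F _ f) := fun _ => rfl
  have hsm : ∀ (f : F) x, φ (f • x) = ψ f * φ x := fun f x => by rw [Algebra.smul_def, map_mul, hψ]
  have hpos : ∀ x (c : F), x ≠ 0 → σ x * x = c • 1 → Pos c := fun x c hx e ρ => by
    obtain ⟨v, h1, h2⟩ := exists_eig ψ c ρ
    refine eig_pos hτ ((h _).2 ⟨x, rfl⟩) (v := v) (fun h3 => h1 ?_) ?_
    · exact mulVec_injective_of_isUnit (((hd x hx).map φ).map (Rat.castHom ℝ).mapMatrix)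
        (h3.trans (mulVec_zero _).symm)
    · have k1 := congrArg (fun y => (φ y).map (Rat.castHom ℝ)) e
      simp only [map_mul, hσ, hsm, map_one, mul_one, Matrix.map_mul, dag_map] at k1
      exact k1 ▸ h2
  have hc : ∀ f, σ (algebraMap F _ f) = algebraMap F _ f := fun f => by
    have h1 := quat_cen ha (x := σ (algebraMap F _ f)) fun y => by
      rw [← hinv y, ← hmul, ← hmul, Algebra.commutes]
    generalize (σ (algebraMap F _ f)).re = y at h1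
    have h2 : σ (algebraMap F _ (f - y)) = -algebraMap F _ (f - y) := inj (by
      rw [hσ, map_sub, map_sub, map_sub, ← hσ, ← h1, ← hσ, hinv, ← map_sub, neg_sub])
    by_contra h3
    have h4 : f - y ≠ 0 := sub_ne_zero.2 fun e => h3 (by rw [h1, e])
    obtain ⟨ρ⟩ := exists_rho F
    have h5 := hpos _ (-(f - y) ^ 2) ((map_ne_zero_iff _ (algebraMap F _).injective).2 h4) (by
      rw [h2, neg_mul, ← map_mul, neg_smul, ← Algebra.algebraMap_eq_smul_one, sq]) ρ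
    rw [map_neg, map_pow] at h5
    nlinarith [sq_nonneg (ρ (f - y))]
  let σ' : QuaternionAlgebra F a 0 b →ₗ[F] QuaternionAlgebra F a 0 b :=
    { toFun := σ
      map_add' := fun x y => inj (by rw [hσ, map_add, map_add, map_add, hσ, hσ])
      map_smul' := fun f x => by
        rw [Algebra.smul_def, hmul, hc, RingHom.id_apply, Algebra.smul_def, Algebra.commutes] }
  obtain ⟨A, B, s, t, hs, ht, h1, h2, h3, h4, h5, h6⟩ := quat_nf ha hb (P := Pos)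
    (fun h => h.ne rfl) (fun ⟨h1, h2⟩ => by
      obtain ⟨ρ⟩ := exists_rho F
      have h3 := h1 ρ
      have h4 := h2 ρ
      rw [map_neg] at h3 h4
      rcases hi ρ with h5 | h5 <;> linarith) σ' (show σ 1 = 1 by simpa only [map_one] using hc 1) hmul hinv hpos
  have t1 : 1 + t ≠ 0 := by simpa using ht.add_ne 1
  have y0 : 2 / (1 + t) ≠ 0 := div_ne_zero two_ne_zero t1
  have hx : ((1 - t) / (1 + t)) ^ 2 + (2 / (1 + t)) ^ 2 * t = 1 := by
    field_simp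
    ring
  generalize 2 / (1 + t) = y at y0 hx
  have cm : ∀ f x, Commute (ψ f) (φ x) := fun f x =>
    Commute.map (Algebra.commutes f x) φ
  have dψ : ∀ f, dag (ψ f) = ψ f := fun f => by rw [hψ, ← hσ, hc]
  refine ⟨ψ, φ A, φ (y • B), s, y ^ 2 * t, _, hs, fun ρ => ?_, hx, ?_, ?_, ?_, ?_, ?_, dψ,
    fun f => cm f _, fun f => cm f _, fun d => (h d).trans ⟨?_, ?_⟩⟩
  · rw [map_mul, map_pow]
    exact mul_pos (sq_pos_iff.2 ((_root_.map_ne_zero ρ).2 y0)) (ht ρ)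
  · rw [← map_mul, h3, map_neg, hsm, map_one, mul_one]
  · rw [← map_mul, smul_mul_smul_comm, h4, smul_smul, hsm, map_one, mul_one, sq]
  · rw [← map_mul, ← map_mul, smul_mul_assoc, mul_smul_comm, h5, smul_neg, map_neg, neg_neg]
  · rw [← hσ, ← map_neg]
    exact congrArg φ h1
  · rw [← hσ]
    exact congrArg φ ((map_smul σ' y B).trans (congrArg _ h2))
  · rintro ⟨x, rfl⟩
    obtain ⟨c, rfl⟩ := h6 x
    refine ⟨c 0, c 1, c 2 / y, c 3 / y, ?_⟩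
    rw [← mul_one (ψ (c 0)), ← map_one φ, add_mul]
    simp only [← hsm, ← map_mul, ← map_add, smul_mul_smul_comm, smul_smul, div_mul_cancel₀ _ y0,
      add_assoc]
  · rintro ⟨u, v, u', v', rfl⟩
    exact ⟨_, by simp only [hψ, ← map_mul, ← map_add]; rfl⟩

end MG.T2
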