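import Pool.Agent.Lib.MP_33b3f9_ag.MG.Br.Pel
import Pool.Agent.Lib.MP_33b3f9_ag.MG.Br.Diag
import Pool.Agent.Lib.MP_33b3f9_ag.MG.T2.Pos

/-!
The normal form of an endomorphism algebra of type II.
-/

set_option autoImplicit false

noncomputable section

namespace MG.T2

open Matrix M4 MG.Br

theorem int_poly {F : Type} [Field F] [Algebra ℚ F] (w : F) (c : Polynomial ℚ) :
    ∃ (d : ℤ) (C : Polynomial ℤ), d ≠ 0 ∧
      Polynomial.aeval w C = (d : ℚ) • Polynomial.aeval w c := by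
  obtain ⟨d, hd, h⟩ := IsLocalization.integerNormalization_spec (nonZeroDivisors ℤ) c
  refine ⟨d, IsLocalization.integerNormalization (nonZeroDivisors ℤ) c,
    nonZeroDivisors.ne_zero hd, ?_⟩
  rw [← map_smul, Int.cast_smul_eq_zsmul, ← h, Polynomial.aeval_map_algebraMap]

variable [Dim] {τ : Mat}

theorem com_int {g : MZ} : (zM ℚ g).map (Rat.cast : ℚ → ℝ) = zr g := zM_map (Rat.castHom ℝ) g

theorem gen_of_lef (hL : LefX τ) {a b : MZ} (hE : EndX a b τ) : GEN a b (cst τ) := by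
  refine fun g hg ha hb => hL g hg fun d hd => ?_
  obtain ⟨N, hN, G, hG⟩ := pel_den d
  have e : ∀ (R : Type) [Field R] [CharZero R],
      zM R G = (N : R) • d.map (Rat.cast : ℚ → R) := fun R _ _ => by
    rw [← zM_map (Rat.castHom R), hG]
    ext s t
    simp
  have h1 := diag_comm hE ha hb (h := G) (by
    rw [show zr G = _ from e ℝ, Matrix.smul_mul, Matrix.mul_smul, hd])
  rw [e, Matrix.smul_mul, Matrix.mul_smul] at h1
  exact (smul_right_injective _ (Nat.cast_ne_zero.2 hN.ne' : (N : ℂ) ≠ 0) h1).symm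

theorem exists_pel (hτ : InH τ) {F : Type} [Field F] [NumberField F]
    [NumberField.IsTotallyReal F] (hg : Fintype.card ι = 8 * Module.finrank ℚ F) {q r : F}
    (φ : QuaternionAlgebra F q 0 r →ₐ[ℚ] Matrix ν ν ℚ)
    (hd : ∀ x : QuaternionAlgebra F q 0 r, x ≠ 0 → IsUnit x)
    (hi : ∀ σ : F →+* ℝ, 0 < σ q ∨ 0 < σ r)
    (h : ∀ d : Matrix ν ν ℚ,
      d.map (Rat.cast : ℚ → ℝ) * cst τ = cst τ * d.map (Rat.cast : ℚ → ℝ) ↔ ∃ x, φ x = d) :
    ∃ (a b : MZ) (m n : ℕ), PEL (Module.finrank ℚ F) a b m n ∧ τ ∈ FX a b ∧ EndX a b τ ∧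
      ∃ (X : MZ) (m' : ℕ), 0 < m' ∧ X * X + b * b = (m' : ℤ) • 1 ∧ Xᵀ * J ι ℤ = J ι ℤ * X ∧
        X * b = b * X ∧ zr X * cst τ = cst τ * zr X := by
  obtain ⟨ψ, A, B, s, t, x₀, hs, ht, hx, hA, hB, hBA, dA, dB, dψ, cA, cB, hE⟩ :=
    rosati hτ φ hd hi h
  obtain ⟨x, y, hxy, hgen, h⟩ := exists_cay hs
  obtain ⟨N, hN, a, ha⟩ := pel_den (ψ x + ψ y * A)
  have hN' : (N : ℚ) ≠ 0 := Nat.cast_ne_zero.2 hN.ne'
  obtain ⟨h1, h2, h3, h4⟩ := h _ ψ A hA cA N hN'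
  rw [← ha] at h1 h2 h3 h4
  obtain ⟨c₀, hc₀⟩ := hgen t
  obtain ⟨d, C, hd, hC⟩ := int_poly ((2 * N : ℚ) • x)
    (c₀.comp (Polynomial.C (2 * N : ℚ)⁻¹ * Polynomial.X))
  rw [Polynomial.aeval_comp, map_mul, Polynomial.aeval_C, Polynomial.aeval_X, ← Algebra.smul_def,
    inv_smul_smul₀ (mul_ne_zero two_ne_zero hN'), hc₀] at hC
  obtain ⟨N₂, hN₂, b₀, hb₀⟩ := pel_den B
  obtain ⟨N₃, hN₃, X₀, hX₀⟩ := pel_den (ψ x₀)
  obtain ⟨k, hk⟩ : ∃ k : ℤ, k = d * N₂ * N₃ := ⟨_, rfl⟩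
  have k0 : k ≠ 0 := hk ▸ mul_ne_zero (mul_ne_zero hd (Nat.cast_ne_zero.2 hN₂.ne'))
    (Nat.cast_ne_zero.2 hN₃.ne')
  have k1 : (k : ℚ) ≠ 0 := Int.cast_ne_zero.2 k0
  obtain ⟨b, hb⟩ : ∃ b : MZ, zM ℚ b = (k : ℚ) • B := ⟨(d * N₃) • b₀, by
    rw [zM_smul, hb₀, smul_smul, hk]
    push_cast
    rw [mul_right_comm]⟩
  obtain ⟨X, hX⟩ : ∃ X : MZ, zM ℚ X = (k : ℚ) • ψ x₀ := ⟨(d * N₂) • X₀, by
    rw [zM_smul, hX₀, smul_smul, hk]
    push_cast
    rfl⟩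
  have da : M8.dag (zM ℚ a) = (N : ℚ) • (ψ x - ψ y * A) := by
    rw [ha, map_smul, map_add, M8.dag_mul, dA, dψ, dψ, neg_mul, ← (cA y).eq, sub_eq_add_neg]
  have db : M8.dag (zM ℚ b) = zM ℚ b := by rw [hb, map_smul, dB]
  have e1 : (ψ x - ψ y * A) * (ψ x + ψ y * A) = 1 := by
    have k1 : ψ y * A * ψ x = ψ x * (ψ y * A) := by
      rw [mul_assoc, ← (cA x).eq, ← mul_assoc, ← mul_assoc, ← map_mul, ← map_mul, mul_comm y]
    have k2 : ψ y * A * (ψ y * A) = -(ψ s * (ψ y * ψ y)) := by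
      rw [mul_assoc, ← mul_assoc A, ← (cA y).eq, mul_assoc, hA, mul_neg, mul_neg, ← map_mul,
        ← map_mul, ← map_mul, ← map_mul, mul_comm s, mul_assoc]
    rw [sub_mul, mul_add, mul_add, k1, k2, ← map_one ψ, ← hxy, map_add, sq, sq, map_mul, map_mul,
      map_mul]
    abel
  have e2 : zM ℚ (a + adj a) = ψ ((2 * N : ℚ) • x) := by
    rw [zM_add, zM_adj, ← M8.dag_apply, da, ha, ← smul_add, add_add_sub_cancel, ← two_smul ℚ,
      smul_smul, map_smul, mul_comm]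
  have e3 : Polynomial.aeval ((2 * N : ℚ) • x) ((d * N₂ ^ 2 * N₃ ^ 2) • C) = (k * k : ℚ) • t := by
    rw [map_smul, hC, ← Int.cast_smul_eq_zsmul ℚ, smul_smul, hk]
    congr 1
    push_cast
    ring
  have cq : ∀ u v u' v', (ψ u + ψ v * A + (ψ u' + ψ v' * A) * B).map (Rat.cast : ℚ → ℝ) * cst τ =
      cst τ * (ψ u + ψ v * A + (ψ u' + ψ v' * A) * B).map (Rat.cast : ℚ → ℝ) :=
    fun u v u' v' => (hE _).2 ⟨u, v, u', v', rfl⟩
  have ca : zr a * cst τ = cst τ * zr a := by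
    have k := cq ((N : ℚ) • x) ((N : ℚ) • y) 0 0
    rwa [map_zero, zero_mul, add_zero, zero_mul, add_zero, map_smul, map_smul, smul_mul_assoc,
      ← smul_add, ← ha, com_int] at k
  have cb : zr b * cst τ = cst τ * zr b := by
    have k := cq 0 0 ((k : ℚ) • 1) 0
    rwa [map_zero, zero_mul, add_zero, add_zero, zero_add, map_smul, map_one, smul_mul_assoc,
      one_mul, ← hb, com_int] at k
  have cX : zr X * cst τ = cst τ * zr X := by
    have k := cq ((k : ℚ) • x₀) 0 0 0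
    rwa [map_zero, zero_mul, add_zero, add_zero, zero_mul, add_zero, map_smul, ← hX, com_int] at k
  have tr : 0 ≤ (b * b).trace := by
    have k := tr_nonneg hτ cb
    rw [← com_int, show M8.dag ((zM ℚ b).map Rat.cast) = _ from
      (M8.dag_map (Rat.castHom ℝ) _).symm, db] at k
    have e : (zM ℚ b).map (Rat.castHom ℝ) = zr b := com_int
    rw [e, com_int, ← zr_mul] at k
    have e' : (zr (b * b)).trace = ((b * b).trace : ℤ) :=
      (AddMonoidHom.map_trace (Int.castAddHom ℝ) (b * b)).symm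
    rw [e'] at k
    exact_mod_cast k
  have hP : PEL (Module.finrank ℚ F) a b (N ^ 2) (b * b).trace.toNat := by
    refine ⟨Module.finrank_pos, hg, pow_pos hN 2, (Int.toNat_of_nonneg tr).symm,
      zM_injective ℚ ?_, ⟨(d * N₂ ^ 2 * N₃ ^ 2) • C, zM_injective ℚ ?_, fun z hz => ?_⟩,
      zM_injective ℚ ?_, zM_injective ℚ ?_, h1, h2, fun z hz => ⟨?_, (h3 z hz).2.1⟩⟩
    · rw [zM_mul, zM_mul, zM_tr, zM_smul, zM_J, ← M8.J_dag, mul_assoc, da, ha, smul_mul_smul_comm,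
        e1, mul_smul_comm, mul_one, Int.cast_natCast, Nat.cast_pow, sq]
    · rw [zM_aeval, e2, zM_mul, hb, smul_mul_smul_comm, hB, ← map_smul, ← e3]
      exact (Polynomial.aeval_algHom_apply ψ.toRingHom.toIntAlgHom _ _).symm
    · obtain ⟨ρ, hρ⟩ := (h3 z hz).2.2
      have k2 := Polynomial.aeval_algHom_apply ρ.toIntAlgHom ((2 * N : ℚ) • x)
        ((d * N₂ ^ 2 * N₃ ^ 2) • C)
      rw [e3] at k2
      change Polynomial.aeval (ρ _) _ = ρ _ at k2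
      rw [map_rat_smul, map_rat_smul, Rat.smul_def, Rat.smul_def, Rat.cast_mul, Rat.cast_ofNat,
        mul_assoc, ← hρ] at k2
      rw [k2]
      exact mul_pos (Rat.cast_pos.2 (mul_self_pos.2 k1)) (ht ρ)
    · rw [zM_mul, zM_mul, zM_tr, zM_J, ← M8.J_dag, db]
    · rw [zM_mul, zM_mul, zM_adj, ← M8.dag_apply, da, ha, hb, smul_mul_smul_comm,
        smul_mul_smul_comm, mul_comm (k : ℚ), mul_add, sub_mul, ← (cB x).eq, ← mul_assoc,
        ← (cB y).eq, mul_assoc, hBA, mul_neg, mul_assoc, sub_eq_add_neg]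
    · rw [(h3 z hz).1, Rat.cast_natCast, Nat.cast_pow]
  refine ⟨a, b, N ^ 2, _, hP, (hP.fx_iff hτ).2 ⟨ca, cb⟩, fun g hg => ?_, X, k.natAbs ^ 2,
    pow_pos (Int.natAbs_pos.2 k0) 2, zM_injective ℚ ?_, zM_injective ℚ ?_, zM_injective ℚ ?_, cX⟩
  · obtain ⟨u, v, u', v', e⟩ := (hE (zM ℚ g)).1 (by rw [com_int, hg])
    obtain ⟨c, hc⟩ := h4 u v
    obtain ⟨c', hc'⟩ := h4 ((k : ℚ)⁻¹ • u') ((k : ℚ)⁻¹ • v')
    obtain ⟨f, D, hf, j⟩ := pel_poly a c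
    obtain ⟨f', D', hf', j'⟩ := pel_poly a c'
    have e' : (ψ ((k : ℚ)⁻¹ • u') + ψ ((k : ℚ)⁻¹ • v') * A) * zM ℚ b = (ψ u' + ψ v' * A) * B := by
      rw [hb, map_smul, map_smul, smul_mul_assoc, ← smul_add, smul_mul_smul_comm,
        inv_mul_cancel₀ k1, one_smul]
    refine ⟨f * f', f' • D, f • D', mul_ne_zero hf hf', zM_injective ℚ ?_⟩
    rw [map_smul, map_smul, zM_add, zM_mul, zM_smul, zM_smul, zM_smul, j, j', hc, hc', e,
      smul_smul, smul_smul, smul_mul_assoc, e', smul_add, Int.cast_mul, mul_comm (f' : ℚ)]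
  · rw [zM_add, zM_mul, zM_mul, hX, hb, smul_mul_smul_comm, smul_mul_smul_comm, hB, ← map_mul,
      ← smul_add, ← map_add, ← sq x₀, hx, map_one, zM_smul, zM_one, Nat.cast_pow, Int.natAbs_sq,
      sq, Int.cast_mul]
  · rw [zM_mul, zM_mul, zM_tr, zM_J, ← M8.J_dag, hX, map_smul, dψ]
  · rw [zM_mul, zM_mul, hX, hb, smul_mul_smul_comm, smul_mul_smul_comm, (cB x₀).eq]

end MG.T2
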