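import Pool.Agent.Lib.MP_33b3f9_ag.MG.Un.Main
import Pool.Agent.Lib.MP_33b3f9_ag.MG.T2.Pel
import Pool.Agent.Lib.MP_33b3f9_ag.MG.T2.Blk

/-!
The theorem for uniformised abelian varieties of type II.
-/

set_option autoImplicit false

noncomputable section

namespace MG.T2

open Matrix MvPolynomial M4 M4.Un MG.Br MG.Un Pool.Agent.Lib.MP_33b3f9_ag
open Pool.Agent.MG (Unif galU End0 lef)

variable {K : IntermediateField ℚ ℂ} {α : Type} [Fintype α] {J : Set (MvPolynomial α K)} {g : ℕ}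
  {p : (Fin g ⊕ Fin g → ℝ) ≃ₗ[ℝ] (Fin g → ℂ)} {u : (Fin g → ℂ) → α → ℂ}

theorem main (full : ∀ [Dim] {e : ℕ} {a b : MZ} {m n : ℕ} {τ : Mat} {K : IntermediateField ℚ ℂ}
      {r : Rep K}, AV τ K r → PEL e a b m n → τ ∈ FX a b → EndX a b τ → COMM a b r →
      GEN a b (cst τ) → FULL e a b r)
    [FiniteDimensional ℚ K] (hA : Unif J p u) {I : Matrix (Fin g ⊕ Fin g) (Fin g ⊕ Fin g) ℝ}
    (hI : ∀ x, p (I *ᵥ x) = Complex.I • p x) (F : Type) [Field F] [NumberField F]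
    [NumberField.IsTotallyReal F] (hg : g = 8 * Module.finrank ℚ F) {q r : F}
    (φ : QuaternionAlgebra F q 0 r →ₐ[ℚ] Matrix (Fin g ⊕ Fin g) (Fin g ⊕ Fin g) ℚ)
    (hd : ∀ x : QuaternionAlgebra F q 0 r, x ≠ 0 → IsUnit x)
    (hi : ∀ σ : F →+* ℝ, 0 < σ q ∨ 0 < σ r)
    (hE : Set.range φ = End0 I) (hL : lef I ⊆ zeroSet ℂ (mtEqns I)) (ℓ : ℕ) [Fact ℓ.Prime]
    (U : Subgroup (ℂ ≃ₐ[K] ℂ)) (hU : U.FiniteIndex)
    (h : galU p u ℓ U ⊆ zeroSet ℚ_[ℓ] (mtEqns I)) :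
    zcl (AlgebraicClosure ℚ_[ℓ]) (galU p u ℓ U) = zeroSet (AlgebraicClosure ℚ_[ℓ]) (mtEqns I) := by
  have : Nonempty (Fin g) := ⟨⟨0, by have : 0 < Module.finrank ℚ F := Module.finrank_pos; omega⟩⟩
  have hu : ∀ a, Differentiable ℂ fun z => u z a := differentiable_pi.1 hA.hol
  obtain ⟨τ, G, k, v, γ, χ, hτ, hG, hGI, hk, hγ, hvu, hv, hχ, hUv⟩ :=
    RF' u hA.hol (m_ne hA) p hI (m_per hA) fun z c e =>
      ((hA.inj z 0).1 ⟨c, e⟩).imp fun n hn => (sub_zero z).symm.trans hn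
  obtain ⟨φ', hφ⟩ := end_conj hG hGI φ hE
  have hL' := lef_conj hτ hG hGI hL
  have hrat := rational u hu (m_ne hA) p _ (m_img hA) hA.inj (m_sub hA)
  have hsq := fun X b m => sq_end hτ K u hu (m_ne hA) p hI hG hGI hk v γ hγ hvu hv χ hχ hUv
    (m_gr hA) (seg_rat u hu (m_ne hA) p _ (m_img hA) hA.inj (m_sub hA)) (X := X) (b := b) (m := m)
  let : Dim := ⟨Fin g, inferInstance, inferInstance, inferInstance⟩
  obtain ⟨a, b, m, n, hP, hF, hX, X, m', h1, h2, h3, h4, h5⟩ :=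
    exists_pel hτ ((Fintype.card_fin g).trans hg) φ' hd hi hφ
  obtain ⟨U₁, hU₁, hR⟩ := descend hτ K u hu (m_ne hA) p hI hG hGI hk v γ hγ hvu hv χ hχ hUv
    (m_gr hA) (hrat k)
  obtain ⟨U₂, hU₂, ha⟩ := descend_end hτ K u hu (m_ne hA) p hI hG hGI hk v γ hγ hvu hv χ hχ hUv
    (m_gr hA) hrat hP.m0 hP.sim_a hF.2.1
  obtain ⟨U₃, hU₃, hb⟩ := hsq X b m' h1 h2 h3 hP.bJ h4 h5 hF.2.2
  have e0 : ∀ x, zr (G.det • b * G) *ᵥ x = zr G *ᵥ zr (G.adjugate * (b * G)) *ᵥ x := fun x => by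
    rw [mulVec_mulVec, ← zr_mul, ← Matrix.mul_assoc, mul_adjugate, smul_mul_assoc, smul_mul_assoc,
      Matrix.one_mul]
  refine transfer K hP hF (fun _ _ h hc => full h hP hF hX hc (gen_of_lef hL' hX)) hG hGI
    (m_gr hA) (U₁ ⊓ (U₂ ⊓ U₃)) (fun σ hσ => hR σ hσ.1) (fun σ hσ => ha σ hσ.2.1) hG
    (fun σ hσ x y h => ?_) ℓ U hU (fun σ hσ g hg => ⟨g, ⟨σ, hσ, fun n x y hxy => ?_⟩, rfl⟩) h
  · rw [e0, e0]
    exact hR σ hσ.1 _ _ (hb σ hσ.2.2 x y h)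
  have e : ∀ {κ : Type} (x : κ → ℤ), (fun i => (x i : ℝ) / (ℓ : ℝ) ^ n) = M4.Kz.rq (ℓ ^ n) x :=
    fun x => by
      funext i
      simp [M4.Kz.rq, rz, div_eq_inv_mul]
  rw [e, e]
  exact hg n x y hxy

end MG.T2
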