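import Pool.Agent.Lib.MP_33b3f9_ag.MG.S0
import Pool.Agent.Lib.MP_33b3f9_ag.Un.Main

/-!
The case of the field of rational numbers.
-/

set_option autoImplicit false

noncomputable section

namespace MG.T2

open Matrix Pool.Agent.MG Pool.Agent.Lib.MP_33b3f9_ag

theorem one_sur {F : Type} [Field F] [NumberField F] (hF : Module.finrank ℚ F = 1) :
    Function.Surjective (algebraMap ℚ F) := fun x =>
  ((finrank_eq_one_iff_of_nonzero' (1 : F) one_ne_zero).1 hF x).imp fun c hc => by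
    rw [Algebra.algebraMap_eq_smul_one, hc]

theorem one_endZ {I : Matrix (ν 4) (ν 4) ℝ} {F : Type} [Field F] [NumberField F]
    (hF : Module.finrank ℚ F = 1) (φ : F →ₐ[ℚ] Matrix (ν 4) (ν 4) ℚ)
    (hE : Set.range φ = End0 I) : Pool.Agent.M4.EndZ I := fun g hg => by
  obtain ⟨f, hf⟩ := hE.ge (show g.map (Int.cast : ℤ → ℚ) ∈ End0 I by
    simpa only [End0, Set.mem_ofPred_eq, Matrix.map_map, Function.comp_def, Rat.cast_intCast]
      using hg)
  obtain ⟨q, rfl⟩ := one_sur hF f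
  rw [φ.commutes, Algebra.algebraMap_eq_smul_one] at hf
  refine ⟨g (.inl 0) (.inl 0), Matrix.ext fun i j => Int.cast_injective (α := ℚ) ?_⟩
  have h1 := congrFun (congrFun hf i) j
  have h2 := congrFun (congrFun hf (.inl 0)) (.inl 0)
  simp only [Matrix.smul_apply, map_apply, one_apply_eq, smul_eq_mul, mul_one] at h1 h2
  rw [← h1, h2, Matrix.smul_apply, one_apply, one_apply]
  split_ifs <;> simp

variable {K : IntermediateField ℚ ℂ} [FiniteDimensional ℚ K] {ι : Type} [Fintype ι] {g : ℕ}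
  {J : Set (MvPolynomial ι K)} {p : (ν g → ℝ) ≃ₗ[ℝ] (Fin g → ℂ)} {u : (Fin g → ℂ) → ι → ℂ}
  {I : Matrix (ν g) (ν g) ℝ} {F : Type} [Field F] [NumberField F]

theorem oneI (hA : Unif J p u) (hI : ∀ x, p (I *ᵥ x) = Complex.I • p x)
    (hF : Module.finrank ℚ F = 1) (hg : g = 4 * Module.finrank ℚ F)
    (φ : F →ₐ[ℚ] Matrix (ν g) (ν g) ℚ) (hE : Set.range φ = End0 I)
    (ℓ : ℕ) [Fact ℓ.Prime] (U : Subgroup (ℂ ≃ₐ[K] ℂ)) (hU : U.FiniteIndex)
    (h : galU p u ℓ U ⊆ zeroSet ℚ_[ℓ] (mtEqns I)) :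
    zcl (AlgebraicClosure ℚ_[ℓ]) (galU p u ℓ U) = zeroSet (AlgebraicClosure ℚ_[ℓ]) (mtEqns I) := by
  obtain rfl : g = 4 := by rw [hg, hF]
  exact M4.Un.main (J := J) ⟨hA.hol, hA.img, hA.inj, hA.sub⟩ hI (one_endZ hF φ hE) ℓ U hU h

end MG.T2
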