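import Pool.Agent.Lib.MP_33b3f9_ag.MG.S0
import Pool.Agent.Lib.MP_33b3f9_ag.M8.Un.Main

/-!
The case of the field of rational numbers, type II.
-/

set_option autoImplicit false

noncomputable section

namespace MG.T2

open Matrix Pool.Agent.MG Pool.Agent.Lib.MP_33b3f9_ag

theorem two_sur {F : Type} [Field F] [NumberField F] (hF : Module.finrank ℚ F = 1) :
    Function.Surjective (algebraMap ℚ F) := fun x =>
  ((finrank_eq_one_iff_of_nonzero' (1 : F) one_ne_zero).1 hF x).imp fun c hc => by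
    rw [Algebra.algebraMap_eq_smul_one, hc]

theorem one_of {I : Matrix (ν 8) (ν 8) ℝ} {D : Type} [Ring D] [Algebra ℚ D] {a b : ℚ}
    (ψ : QuaternionAlgebra ℚ a 0 b ≃ₐ[ℚ] D) (φ : D →ₐ[ℚ] Matrix (ν 8) (ν 8) ℚ)
    (hD : ∀ x : D, x ≠ 0 → IsUnit x) (ha : 0 < a) (hE : Set.range φ = End0 I) :
    Pool.Agent.M8.EndII I := by
  have h1 : ∀ x : QuaternionAlgebra ℚ a 0 b, x ≠ 0 → IsUnit x := fun x hx =>
    (isUnit_map_iff ψ x).1 (hD _ ((map_ne_zero_iff ψ ψ.injective).2 hx))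
  refine ⟨a, b, φ.comp ψ, ha, fun h0 => ?_, h1, fun g => ⟨fun h => ?_, ?_⟩⟩
  · have h2 : (⟨0, 0, 1, 0⟩ : QuaternionAlgebra ℚ a 0 b) ≠ 0 := fun h =>
      one_ne_zero (congrArg QuaternionAlgebra.imJ h)
    exact h2 ((h1 _ h2).mul_right_eq_zero.1 (by ext <;> simp [h0]))
  · obtain ⟨y, rfl⟩ := hE.ge h
    exact ⟨ψ.symm y, congrArg φ (ψ.apply_symm_apply y)⟩
  · rintro ⟨x, rfl⟩
    exact hE.le ⟨ψ x, rfl⟩

theorem one_endII {I : Matrix (ν 8) (ν 8) ℝ} {F : Type} [Field F] [NumberField F]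
    (hF : Module.finrank ℚ F = 1) {a b : F}
    (φ : QuaternionAlgebra F a 0 b →ₐ[ℚ] Matrix (ν 8) (ν 8) ℚ)
    (hD : ∀ x : QuaternionAlgebra F a 0 b, x ≠ 0 → IsUnit x)
    (hp : ∀ σ : F →+* ℝ, 0 < σ a ∨ 0 < σ b) (hE : Set.range φ = End0 I) :
    Pool.Agent.M8.EndII I := by
  obtain ⟨a, rfl⟩ := two_sur hF a
  obtain ⟨b, rfl⟩ := two_sur hF b
  let B : QuaternionAlgebra.Basis (QuaternionAlgebra F (algebraMap ℚ F a) 0 (algebraMap ℚ F b))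
      a 0 b :=
    ⟨⟨0, 1, 0, 0⟩, ⟨0, 0, 1, 0⟩, ⟨0, 0, 0, 1⟩, by ext <;> simp [Rat.smul_def],
      by ext <;> simp [Rat.smul_def], by ext <;> simp, by ext <;> simp⟩
  have h1 : ∀ x, B.liftHom x = ⟨algebraMap ℚ F x.re, algebraMap ℚ F x.imI, algebraMap ℚ F x.imJ,
      algebraMap ℚ F x.imK⟩ := fun x => by
    rw [QuaternionAlgebra.Basis.liftHom_apply, QuaternionAlgebra.Basis.lift,
      Algebra.algebraMap_eq_smul_one x.re]
    ext <;> simp [B, Rat.smul_def]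
  let ψ := AlgEquiv.ofBijective B.liftHom ⟨fun x y h => by
    rw [h1, h1, QuaternionAlgebra.mk.injEq] at h
    ext <;> apply (algebraMap ℚ F).injective
    exacts [h.1, h.2.1, h.2.2.1, h.2.2.2], fun y => by
    choose s hs using two_sur hF
    exact ⟨⟨s y.re, s y.imI, s y.imJ, s y.imK⟩, by rw [h1]; simp only [hs]⟩⟩
  obtain ⟨σ⟩ : Nonempty (F →+* ℝ) := ⟨(Rat.castHom ℝ).comp (RingEquiv.ofBijective (algebraMap ℚ F)
    ⟨(algebraMap ℚ F).injective, two_sur hF⟩).symm⟩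
  have h2 := hp σ
  simp only [eq_ratCast, map_ratCast, Rat.cast_pos] at h2
  exact h2.elim (one_of ψ φ hD · hE) (one_of ((QuaternionAlgebra.swapEquiv _ _).trans ψ) φ hD · hE)

variable {K : IntermediateField ℚ ℂ} [FiniteDimensional ℚ K] {ι : Type} [Fintype ι] {g : ℕ}
  {J : Set (MvPolynomial ι K)} {p : (ν g → ℝ) ≃ₗ[ℝ] (Fin g → ℂ)} {u : (Fin g → ℂ) → ι → ℂ}
  {I : Matrix (ν g) (ν g) ℝ} {F : Type} [Field F] [NumberField F]

theorem oneII (hA : Unif J p u) (hI : ∀ x, p (I *ᵥ x) = Complex.I • p x)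
    (hF : Module.finrank ℚ F = 1) (hg : g = 8 * Module.finrank ℚ F) {a b : F}
    (φ : QuaternionAlgebra F a 0 b →ₐ[ℚ] Matrix (ν g) (ν g) ℚ)
    (hD : ∀ x : QuaternionAlgebra F a 0 b, x ≠ 0 → IsUnit x)
    (hp : ∀ σ : F →+* ℝ, 0 < σ a ∨ 0 < σ b) (hE : Set.range φ = End0 I)
    (ℓ : ℕ) [Fact ℓ.Prime] (U : Subgroup (ℂ ≃ₐ[K] ℂ)) (hU : U.FiniteIndex)
    (h : galU p u ℓ U ⊆ zeroSet ℚ_[ℓ] (mtEqns I)) :
    zcl (AlgebraicClosure ℚ_[ℓ]) (galU p u ℓ U) = zeroSet (AlgebraicClosure ℚ_[ℓ]) (mtEqns I) := by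
  obtain rfl : g = 8 := by rw [hg, hF]
  exact M8.Un.main (J := J) ⟨hA.hol, hA.img, hA.inj, hA.sub⟩ hI (one_endII hF φ hD hp hE) ℓ U hU h

end MG.T2
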